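import Pool.Agent.helper45.BR.Spec
import Pool.Agent.helper92.MP.ZC0
import Pool.Agent.helper25.MP.ZC

/-!
# Project br: (MP_af9036_an), module MOT: the motion with fixed `N`-th image
-/

set_option autoImplicit false

open Complex Metric Set Filter Topology MeasureTheory MPS Pool.Agent.helper98.ILF
  Pool.Agent.helper16.Multibrot

noncomputable section

namespace BR

theorem MOT_eval (n N : ℕ) (c ζ z : ℂ) :
    (ZC_Phi n c N - Polynomial.C ζ).eval z = (fc n c)^[N] z - ζ := by
  rw [Polynomial.eval_sub, Polynomial.eval_C, ZC_eval]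

theorem MOT_monic {n : ℕ} (hn : 2 ≤ n) (N : ℕ) (c ζ : ℂ) :
    (ZC_Phi n c N - Polynomial.C ζ).Monic ∧ (ZC_Phi n c N - Polynomial.C ζ).natDegree = n ^ N := by
  obtain ⟨h1, h2⟩ := ZC_monic hn c N
  have h5 : 0 < n ^ N := Nat.pow_pos (by omega)
  constructor
  · refine h1.sub_of_left ?_
    refine lt_of_le_of_lt Polynomial.degree_C_le ?_
    rw [Polynomial.degree_eq_natDegree h1.ne_zero, h2]
    exact_mod_cast h5
  · rw [Polynomial.natDegree_sub_C, h2]

theorem MOT_deriv (n N : ℕ) (c ζ z : ℂ) :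
    (ZC_Phi n c N - Polynomial.C ζ).derivative.eval z = mlt n N c z := by
  have h1 : HasDerivAt (fun x => (ZC_Phi n c N - Polynomial.C ζ).eval x)
      ((ZC_Phi n c N - Polynomial.C ζ).derivative.eval z) z := Polynomial.hasDerivAt _ z
  have h2 : (fun x => (ZC_Phi n c N - Polynomial.C ζ).eval x) = fun x => (fc n c)^[N] x - ζ := by
    funext x
    exact MOT_eval n N c ζ x
  rw [h2] at h1
  have h3 : HasDerivAt (fun x => (fc n c)^[N] x - ζ) (mlt n N c z) z := by
    have h4 := (ZBIG_deriv n c N z)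
    unfold mlt
    rw [h4.deriv]
    exact h4.sub_const ζ
  exact h1.unique h3

theorem MOT_coeff (n N : ℕ) (ζ : ℂ) (m : ℕ) :
    Differentiable ℂ fun c => (ZC_Phi n c N - Polynomial.C ζ).coeff m := by
  have h1 : (fun c => (ZC_Phi n c N - Polynomial.C ζ).coeff m) = fun c =>
      (ZC_Phi n c N).coeff m - (Polynomial.C ζ).coeff m := by
    funext c
    rw [Polynomial.coeff_sub]
  rw [h1]
  exact (ZC_coeff n N m).sub_const _

theorem MOT (hMLN : MLN_stmt) : MOT_stmt := by
  intro n N c r hn hr hb z hz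
  have hc : c ∈ ball c r := mem_ball_self hr
  obtain ⟨w, h1, h2, h3⟩ := ZC0 (n ^ N) c r
    (fun c' => ZC_Phi n c' N - Polynomial.C ((fc n c)^[N] z)) hr
    (fun c' hc' => ⟨(MOT_monic hn N c' _).1, (MOT_monic hn N c' _).2, fun x hx => by
      rw [MOT_eval, sub_eq_zero] at hx
      rw [MOT_deriv]
      exact hMLN n N c' x hn (hb hc') (by rw [hx]; exact hz) N le_rfl⟩)
    (fun m => (MOT_coeff n N _ m).differentiableOn) z
    (by rw [MOT_eval, sub_self])
  refine ⟨w, h1, h2, fun c' hc' => ?_⟩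
  have h4 := h3 c' hc'
  rwa [MOT_eval, sub_eq_zero] at h4

end BR
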