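import Pool.Agent.helper45.BR.Spec

/-!
# Project br: (MP_af9036_an), module NPC: no periodic components
-/

set_option autoImplicit false

open Complex Metric Set Filter Topology MeasureTheory MPS Pool.Agent.helper98.ILF
  Pool.Agent.helper16.Multibrot

noncomputable section

namespace BR

theorem NPC (hCMP : CMP_stmt) (hHUL : HUL_stmt) (hNPP : NPP_stmt) (hCTR : CTR_stmt)
    (hESC : ESC_stmt) (hREC : REC_stmt) (hRDF : RDF_stmt) : NPC_stmt := by
  intro n c U m hn hc hAR hU hm hmt
  obtain ⟨h1, h2, h3, h4, -⟩ := hCMP n c U hn hc hU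
  have hfd : Differentiable ℂ (fc n c) := by
    unfold fc
    fun_prop
  have hd : DifferentiableOn ℂ ((fc n c)^[m]) U := (hfd.iterate m).differentiableOn
  obtain ⟨x, hx, C, hCU, hC, hf⟩ := hESC n c U m hn hc hAR hU hm hmt
  refine hRDF ((fc n c)^[m]) U
    { op := h1
      co := h2
      bd := h4
      di := hd
      mt := hmt
      nh := hHUL n c U hn hc hU
      np := ?_
      rc := ?_ }
  · intro k hk z hz h
    rw [← Function.iterate_mul] at h
    exact hNPP n c hn hc hAR (m * k) z (Nat.mul_pos hm hk) (h3 hz) h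
  · exact hREC ((fc n c)^[m]) U x C h1 h2 h4 hd hmt hx hCU hC hf
      (fun u ψ w hu hψ hw => hCTR n c U m u ψ w hn hc hAR hU hm hmt hu hψ hw)

end BR
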